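import Pool.Agent.Y811.PC.Stm4

/-! Job PC-DEC (for helper811): decay of the quadratic differential. -/

set_option autoImplicit false

namespace Pool.Agent.Y978.PC

open Complex Metric Set Filter Topology Pool.Agent.Y811.PC

theorem sum_shift {m : ℕ} {f : ℕ → ℂ} (hf : ∀ j, f (j + m) = f j) :
    ∑ j ∈ Finset.range m, f (j + 1) = ∑ j ∈ Finset.range m, f j := by
  have h1 := Finset.sum_range_succ f m
  rw [Finset.sum_range_succ'] at h1
  have h2 : f m = f 0 := by rw [← hf 0, zero_add]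
  rw [h2] at h1
  exact add_right_cancel h1

theorem cyc_sum {d m : ℕ} {c : ℂ} {b β : ℕ → ℂ} {A : ℂ} (h : Cyc d m c b β A) :
    ∑ j ∈ Finset.range m, (A + β j * b j) = 0 := by
  have hd0 : (d : ℂ) ≠ 0 := by
    have := h.hd
    exact_mod_cast (by omega : d ≠ 0)
  have h1 : ∀ j, β j * b j = ((d : ℂ) - 1) * A + (d : ℂ) * (β (j + 1) * b (j + 1)) -
      (d : ℂ) * c * β (j + 1) := by
    intro j
    have h2 : β (j + 1) * ((d : ℂ) * b j ^ d) = β j * b j - ((d : ℂ) - 1) * A := by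
      rw [h.recu j]
      have h3 : b j ^ d = b j ^ (d - 1) * b j := by
        rw [← pow_succ]
        congr 1
        have := h.hd
        omega
      have h4 : b j ^ (d - 1) ≠ 0 := pow_ne_zero _ (h.ne j)
      have h5 := h.ne j
      rw [h3]
      field_simp
    have h3 : b j ^ d = b (j + 1) - c := by rw [h.step j]; ring
    rw [h3] at h2
    linear_combination -h2
  have h2 : ∑ j ∈ Finset.range m, β j * b j = m * (((d : ℂ) - 1) * A) +
      (d : ℂ) * ∑ j ∈ Finset.range m, β j * b j := by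
    have h3 : ∑ j ∈ Finset.range m, β j * b j = ∑ j ∈ Finset.range m,
        (((d : ℂ) - 1) * A + (d : ℂ) * (β (j + 1) * b (j + 1)) - (d : ℂ) * c * β (j + 1)) :=
      Finset.sum_congr rfl fun j _ => h1 j
    rw [Finset.sum_sub_distrib, Finset.sum_add_distrib, ← Finset.mul_sum, ← Finset.mul_sum,
      ← Finset.mul_sum,
      sum_shift (f := fun j => β j * b j) (fun j => by simp only [h.bper, h.per]),
      sum_shift (f := β) h.bper, h.sum, Finset.sum_const, Finset.card_range, nsmul_eq_mul,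
      mul_zero, sub_zero] at h3
    linear_combination h3
  have hd1 : (d : ℂ) - 1 ≠ 0 := by
    intro h0
    have h3 : (d : ℂ) = 1 := by linear_combination h0
    have h4 : d = 1 := by exact_mod_cast h3
    have := h.hd
    omega
  rw [Finset.sum_add_distrib, Finset.sum_const, Finset.card_range, nsmul_eq_mul]
  apply mul_left_cancel₀ hd1
  linear_combination -h2

theorem rem_bd {A β b z : ℂ} (h : 2 * ‖b‖ + 1 ≤ ‖z‖) :
    ‖A * (2 * z * b - b ^ 2) / (z ^ 2 * (z - b) ^ 2) + β * b ^ 2 / (z ^ 2 * (z - b))‖ ≤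
      (12 * ‖A‖ * ‖b‖ + 2 * ‖β‖ * ‖b‖ ^ 2) / ‖z‖ ^ 3 := by
  have hb0 := norm_nonneg b
  have hz : 0 < ‖z‖ := by linarith
  have h1 : ‖z‖ / 2 ≤ ‖z - b‖ := by
    have := norm_sub_norm_le z b
    linarith
  have h2 : 0 < ‖z - b‖ := by linarith
  have e1 : ‖A * (2 * z * b - b ^ 2) / (z ^ 2 * (z - b) ^ 2)‖ ≤ 12 * ‖A‖ * ‖b‖ / ‖z‖ ^ 3 := by
    rw [norm_div, norm_mul, norm_mul, norm_pow, norm_pow, div_le_div_iff₀ (by positivity)
      (by positivity)]
    have h3 : ‖2 * z * b - b ^ 2‖ ≤ 3 * ‖z‖ * ‖b‖ := by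
      refine (norm_sub_le _ _).trans ?_
      rw [norm_mul, norm_mul, norm_pow, Complex.norm_ofNat]
      nlinarith
    have h4 : (‖z‖ / 2) ^ 2 ≤ ‖z - b‖ ^ 2 := pow_le_pow_left₀ (by positivity) h1 2
    calc ‖A‖ * ‖2 * z * b - b ^ 2‖ * ‖z‖ ^ 3 ≤ ‖A‖ * (3 * ‖z‖ * ‖b‖) * ‖z‖ ^ 3 := by gcongr
      _ = 12 * ‖A‖ * ‖b‖ * (‖z‖ ^ 2 * (‖z‖ / 2) ^ 2) := by ring
      _ ≤ 12 * ‖A‖ * ‖b‖ * (‖z‖ ^ 2 * ‖z - b‖ ^ 2) := by gcongr
  have e2 : ‖β * b ^ 2 / (z ^ 2 * (z - b))‖ ≤ 2 * ‖β‖ * ‖b‖ ^ 2 / ‖z‖ ^ 3 := by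
    rw [norm_div, norm_mul, norm_mul, norm_pow, norm_pow, div_le_div_iff₀ (by positivity)
      (by positivity)]
    calc ‖β‖ * ‖b‖ ^ 2 * ‖z‖ ^ 3 = 2 * ‖β‖ * ‖b‖ ^ 2 * (‖z‖ ^ 2 * (‖z‖ / 2)) := by ring
      _ ≤ 2 * ‖β‖ * ‖b‖ ^ 2 * (‖z‖ ^ 2 * ‖z - b‖) := by gcongr
  rw [add_div]
  exact (norm_add_le _ _).trans (add_le_add e1 e2)

theorem t_DEC : S_DEC := by
  intro d m c b β A h
  refine ⟨∑ j ∈ Finset.range m, (12 * ‖A‖ * ‖b j‖ + 2 * ‖β j‖ * ‖b j‖ ^ 2) + 1,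
    2 * ∑ j ∈ Finset.range m, ‖b j‖ + 1, by positivity, ?_, ?_⟩
  · have : 0 ≤ ∑ j ∈ Finset.range m, ‖b j‖ := by positivity
    linarith
  · intro z hz
    have hS : 0 ≤ ∑ j ∈ Finset.range m, ‖b j‖ := by positivity
    have hz0 : 0 < ‖z‖ := by linarith
    have hzne : z ≠ 0 := norm_pos_iff.1 hz0
    have hb : ∀ j ∈ Finset.range m, 2 * ‖b j‖ + 1 ≤ ‖z‖ := by
      intro j hj
      have := Finset.single_le_sum (f := fun j => ‖b j‖) (fun i _ => norm_nonneg _) hj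
      linarith
    have h1 : gg m b β A z = ∑ j ∈ Finset.range m,
        (A * (2 * z * b j - b j ^ 2) / (z ^ 2 * (z - b j) ^ 2) +
          β j * b j ^ 2 / (z ^ 2 * (z - b j))) := by
      have h2 : ∑ j ∈ Finset.range m, (β j / z + (A + β j * b j) / z ^ 2) = 0 := by
        rw [Finset.sum_add_distrib, ← Finset.sum_div, ← Finset.sum_div, h.sum, cyc_sum h,
          zero_div, zero_div, add_zero]
      unfold gg
      rw [← sub_zero (∑ j ∈ Finset.range m, (A / (z - b j) ^ 2 + β j / (z - b j))), ← h2,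
        ← Finset.sum_sub_distrib]
      refine Finset.sum_congr rfl fun j hj => ?_
      have h3 : z - b j ≠ 0 := by
        intro h0
        have h4 : z = b j := sub_eq_zero.1 h0
        have h5 := hb j hj
        rw [← h4] at h5
        linarith
      field_simp
      ring
    rw [h1]
    calc _ ≤ ∑ j ∈ Finset.range m, ‖A * (2 * z * b j - b j ^ 2) / (z ^ 2 * (z - b j) ^ 2) +
          β j * b j ^ 2 / (z ^ 2 * (z - b j))‖ := norm_sum_le _ _
      _ ≤ ∑ j ∈ Finset.range m, (12 * ‖A‖ * ‖b j‖ + 2 * ‖β j‖ * ‖b j‖ ^ 2) / ‖z‖ ^ 3 :=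
          Finset.sum_le_sum fun j hj => rem_bd (hb j hj)
      _ = (∑ j ∈ Finset.range m, (12 * ‖A‖ * ‖b j‖ + 2 * ‖β j‖ * ‖b j‖ ^ 2)) / ‖z‖ ^ 3 := by
          rw [Finset.sum_div]
      _ ≤ _ := by
          apply div_le_div_of_nonneg_right _ (by positivity)
          linarith

end Pool.Agent.Y978.PC
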